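import Pool.Agent.Y440.P.Final
import Pool.Agent.Y440.P.Lim
import Pool.Agent.Y430.Q440.Univ
import Pool.Agent.Y705.Q440.Even
import Pool.Agent.Y705.Q440.Lower

/-! The largest 3-dimensional cocycles: `f(n,4) ≤ 11 n^4 / 384` for all `n`, and `f(n,4) / C(n,4)` tends to 11/16. -/

set_option autoImplicit false

open Finset Filter

namespace Pool.Agent.Results.MP_8ee768_co.CocycleAsymptotics

/-- `G` is a family of `k`-element subsets of `Fin n`, and every `k + 1` vertices contain an even number of its
members -/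
def IsCocycle (k n : ℕ) (G : Finset (Finset (Fin n))) : Prop :=
  G ⊆ powersetCard k univ ∧
    ∀ S ∈ powersetCard (k + 1) (univ : Finset (Fin n)), Even (G.filter (· ⊆ S)).card

/-- largest number of members of a cocycle -/
noncomputable def f (n k : ℕ) : ℕ := sSup {m : ℕ | ∃ G : Finset (Finset (Fin n)), IsCocycle k n G ∧ G.card = m}

theorem result : (∀ n : ℕ, 384 * f n 4 ≤ 11 * n ^ 4) ∧
    Tendsto (fun n : ℕ => (f n 4 : ℝ) / (n.choose 4 : ℝ)) atTop (nhds (11 / 16)) := by
  have hset : ∀ n : ℕ, {m : ℕ | ∃ G : Finset (Finset (Fin n)), IsCocycle 4 n G ∧ G.card = m} =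
      {m : ℕ | ∃ H : Finset (Finset (Fin n)), H ⊆ powersetCard 4 univ ∧
        (∀ S ∈ powersetCard 5 (univ : Finset (Fin n)), Even (Pool.Agent.Y440.A.nin H S)) ∧ H.card = m} := by
    intro n
    ext m
    constructor
    · rintro ⟨G, ⟨h1, h2⟩, h3⟩
      exact ⟨G, h1, h2, h3⟩
    · rintro ⟨G, h1, h2, h3⟩
      exact ⟨G, ⟨h1, h2⟩, h3⟩
  constructor
  · intro n
    have hne : {m : ℕ | ∃ H : Finset (Finset (Fin n)), H ⊆ powersetCard 4 univ ∧
        (∀ S ∈ powersetCard 5 (univ : Finset (Fin n)), Even (Pool.Agent.Y440.A.nin H S)) ∧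
        H.card = m}.Nonempty := by
      refine ⟨0, ∅, empty_subset _, ?_, card_empty⟩
      intro S _
      simp [Pool.Agent.Y440.A.nin]
    have hb := Pool.Agent.Y440.P.bdd
      (fun n H => ∀ S ∈ powersetCard 5 (univ : Finset (Fin n)), Even (Pool.Agent.Y440.A.nin H S)) n
    obtain ⟨H, hH, hE, hm⟩ := Nat.sSup_mem hne hb
    have h := Pool.Agent.Y705.Q440.tEven Pool.Agent.Y440.P.main n H hH hE
    unfold f
    rw [hset n, ← hm]
    exact h
  · have h := Pool.Agent.Y440.P.lim Pool.Agent.Y430.Q440.t Pool.Agent.Y440.P.main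
      Pool.Agent.Y705.Q440.Lower.t
      (fun n H => ∀ S ∈ powersetCard 5 (univ : Finset (Fin n)), Even (Pool.Agent.Y440.A.nin H S))
      (fun n H _ h => h) ?_
    · refine h.congr ?_
      intro n
      unfold f Pool.Agent.Y440.P.exP
      rw [hset n]
    · intro n H hH hE
      have h5 : Pool.Agent.Y440.P.fv H 5 = 0 := by
        unfold Pool.Agent.Y440.P.fv
        rw [card_eq_zero, filter_eq_empty_iff]
        intro S hS h0
        have := hE S hS
        rw [h0] at this
        exact absurd this (by decide)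
      have h3 : Pool.Agent.Y440.P.fv H 3 = 0 := by
        unfold Pool.Agent.Y440.P.fv
        rw [card_eq_zero, filter_eq_empty_iff]
        intro S hS h0
        have := hE S hS
        rw [h0] at this
        exact absurd this (by decide)
      rw [h5, h3]
      omega

end Pool.Agent.Results.MP_8ee768_co.CocycleAsymptotics
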